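import Pool.Agent.W8.LS.Stm

/-!
Part LS-PhiInj: the sphere map is injective on the unit sphere.
-/

open scoped Topology ContDiff
open Complex (I)

namespace Pool.Agent.W685.LS.PhiInj

open Pool.Agent.W8.LS

theorem ne_zero_of {a b : ℂ} (hab : ‖b‖ ≤ ‖a‖) (h : ‖a‖ ^ 2 + ‖b‖ ^ 2 = 1) : a ≠ 0 := by
  rintro rfl
  rw [norm_zero] at hab h
  have : ‖b‖ = 0 := le_antisymm hab (norm_nonneg _)
  rw [this] at h
  norm_num at h

theorem core {a b a' b' : ℂ} (ha : a ≠ 0) (ha' : a' ≠ 0)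
    (h : ‖a‖ ^ 2 + ‖b‖ ^ 2 = 1) (h' : ‖a'‖ ^ 2 + ‖b'‖ ^ 2 = 1) (hd : b / a = b' / a')
    (harg : ∃ n : ℤ, Complex.arg a' / (2 * Real.pi) = Complex.arg a / (2 * Real.pi) + n) :
    a = a' ∧ b = b' := by
  have hpi := Real.pi_pos
  obtain ⟨n, hn⟩ := harg
  have hn2 : Complex.arg a' = Complex.arg a + n * (2 * Real.pi) := by
    field_simp at hn
    linarith
  have h1 := Complex.neg_pi_lt_arg a
  have h2 := Complex.arg_le_pi a
  have h3 := Complex.neg_pi_lt_arg a'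
  have h4 := Complex.arg_le_pi a'
  have hn0 : n = 0 := by
    have h5 : (n : ℝ) < 1 := by
      by_contra hc
      push Not at hc
      nlinarith
    have h6 : (-1 : ℝ) < n := by
      by_contra hc
      push Not at hc
      nlinarith
    have h7 : n < 1 := by exact_mod_cast h5
    have h8 : -1 < n := by exact_mod_cast h6
    omega
  rw [hn0] at hn2
  have hargeq : Complex.arg a = Complex.arg a' := by
    rw [hn2]
    push_cast
    ring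
  have hna : 0 < ‖a‖ := norm_pos_iff.2 ha
  have hna' : 0 < ‖a'‖ := norm_pos_iff.2 ha'
  have hb : b = (b / a) * a := by field_simp
  have hb' : b' = (b / a) * a' := by
    rw [hd]
    field_simp
  have hnb : ‖b‖ = ‖b / a‖ * ‖a‖ := by
    rw [← norm_mul, ← hb]
  have hnb' : ‖b'‖ = ‖b / a‖ * ‖a'‖ := by
    rw [← norm_mul, ← hb']
  have e1 : ‖a‖ ^ 2 * (1 + ‖b / a‖ ^ 2) = 1 := by
    rw [hnb] at h
    linarith [h, mul_pow ‖b / a‖ ‖a‖ 2]
  have e2 : ‖a'‖ ^ 2 * (1 + ‖b / a‖ ^ 2) = 1 := by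
    rw [hnb'] at h'
    linarith [h', mul_pow ‖b / a‖ ‖a'‖ 2]
  have hpos : 0 < 1 + ‖b / a‖ ^ 2 := by positivity
  have hsq : ‖a‖ ^ 2 = ‖a'‖ ^ 2 := mul_right_cancel₀ hpos.ne' (e1.trans e2.symm)
  have hn3 : ‖a‖ = ‖a'‖ := (pow_left_inj₀ hna.le hna'.le two_ne_zero).1 hsq
  have haa : a = a' := Complex.ext_norm_arg hn3 hargeq
  refine ⟨haa, ?_⟩
  rw [hb, hb', haa]

theorem norm_kap {a b : ℂ} (ha : a ≠ 0) (hab : ‖b‖ ≤ ‖a‖) :
    ‖(kap : ℂ) * (b / a)‖ ≤ kap := by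
  have hk : 0 < kap := Real.exp_pos _
  have hna : 0 < ‖a‖ := norm_pos_iff.2 ha
  rw [norm_mul, norm_div, Complex.norm_real, Real.norm_eq_abs, abs_of_pos hk]
  have : ‖b‖ / ‖a‖ ≤ 1 := (div_le_one hna).2 hab
  nlinarith

theorem norm_kap_lt {a b : ℂ} (ha : a ≠ 0) (hab : ‖b‖ < ‖a‖) :
    ‖(kap : ℂ) * (b / a)‖ < kap := by
  have hk : 0 < kap := Real.exp_pos _
  have hna : 0 < ‖a‖ := norm_pos_iff.2 ha
  rw [norm_mul, norm_div, Complex.norm_real, Real.norm_eq_abs, abs_of_pos hk]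
  have : ‖b‖ / ‖a‖ < 1 := (div_lt_one hna).2 hab
  nlinarith

theorem same {hF : LamFacts} (hI : LamInj) {G : ℂ → ℂ} (hG : GProp G) (k l m r : ℤ) (N : ℕ)
    {a b a' b' : ℂ} (hab : ‖b‖ ≤ ‖a‖) (hab' : ‖b'‖ ≤ ‖a'‖)
    (h : ‖a‖ ^ 2 + ‖b‖ ^ 2 = 1) (h' : ‖a'‖ ^ 2 + ‖b'‖ ^ 2 = 1)
    (heq : lam k l m r N (Complex.arg a / (2 * Real.pi)) (G (kap * (b / a))) =
      lam k l m r N (Complex.arg a' / (2 * Real.pi)) (G (kap * (b' / a')))) :
    a = a' ∧ b = b' := by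
  have ha := ne_zero_of hab h
  have ha' := ne_zero_of hab' h'
  obtain ⟨z, hz⟩ := hF.2.2.1.1 (G (kap * (b / a)))
  obtain ⟨z', hz'⟩ := hF.2.2.1.1 (G (kap * (b' / a')))
  have hr := hG.2.2.2.2.1 _ z (norm_kap ha hab) hz
  have hr' := hG.2.2.2.2.1 _ z' (norm_kap ha' hab') hz'
  rw [← hz, ← hz'] at heq
  obtain ⟨h1, h2⟩ := hI hF k l m r N _ _ z z' (by linarith) (by linarith) heq
  rw [hz, hz'] at h2
  have h3 := hG.2.1 h2
  have hk : (kap : ℂ) ≠ 0 := by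
    have : kap ≠ 0 := (Real.exp_pos _).ne'
    exact_mod_cast this
  exact core ha ha' h h' (mul_left_cancel₀ hk h3) h1

theorem diff {hF : LamFacts} (hS : LamSep) {G : ℂ → ℂ} (hG : GProp G) (N : ℕ)
    {a b a' b' : ℂ} (hab : ‖b‖ ≤ ‖a‖) (hab' : ‖a'‖ < ‖b'‖)
    (h : ‖a‖ ^ 2 + ‖b‖ ^ 2 = 1)
    (heq : lam 0 0 0 0 N (Complex.arg a / (2 * Real.pi)) (G (kap * (b / a))) =
      lam (-1) 0 (-(N : ℤ)) 0 N (Complex.arg b' / (2 * Real.pi)) (G (kap * (a' / b')))) :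
    False := by
  have ha := ne_zero_of hab h
  have hb' : b' ≠ 0 := by
    rintro rfl
    rw [norm_zero] at hab'
    exact absurd hab' (not_lt.2 (norm_nonneg _))
  obtain ⟨z, hz⟩ := hF.2.2.1.1 (G (kap * (b / a)))
  obtain ⟨z', hz'⟩ := hF.2.2.1.1 (G (kap * (a' / b')))
  have hr := hG.2.2.2.2.1 _ z (norm_kap ha hab) hz
  have hr' := hG.2.2.2.2.2 _ z' (norm_kap_lt hb' hab') hz'
  rw [← hz, ← hz'] at heq
  exact hS hF N _ _ z z' hr hr' heq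

theorem PhiInj_proof : PhiInj := by
  intro hF hI hS _ _ _ G hG N p q hp hq heq
  obtain ⟨a, b⟩ := p
  obtain ⟨a', b'⟩ := q
  simp only at hp hq
  unfold phi at heq
  simp only at heq
  by_cases h1 : ‖b‖ ≤ ‖a‖
  · rw [if_pos h1] at heq
    by_cases h2 : ‖b'‖ ≤ ‖a'‖
    · rw [if_pos h2] at heq
      obtain ⟨e1, e2⟩ := same (hF := hF) hI hG 0 0 0 0 N h1 h2 hp hq heq
      rw [e1, e2]
    · rw [if_neg h2] at heq
      exact (diff (hF := hF) hS hG N h1 (not_le.1 h2) hp heq).elim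
  · rw [if_neg h1] at heq
    by_cases h2 : ‖b'‖ ≤ ‖a'‖
    · rw [if_pos h2] at heq
      exact (diff (hF := hF) hS hG N h2 (not_le.1 h1) hq heq.symm).elim
    · rw [if_neg h2] at heq
      obtain ⟨e1, e2⟩ := same (hF := hF) hI hG (-1) 0 (-(N : ℤ)) 0 N (not_le.1 h1).le
        (not_le.1 h2).le (by rw [add_comm]; exact hp) (by rw [add_comm]; exact hq) heq
      rw [e1, e2]

end Pool.Agent.W685.LS.PhiInj
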